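import Pool.Agent.TH930.PS.Stop

/-! Tame sets (cycles, orbits) of the `3x+k` maps are sparse in every interval, with an exponent below the
entropy exponent, uniformly in `k` at the scale `|k|`. -/

set_option autoImplicit false

namespace Pool.Agent.TH930.SP

open Finset Filter Topology
open Pool.Agent.H319R2 (beta beta_lt beta_gt)
open Pool.Agent.H319R2.G (Tame)
open Pool.Agent.TH930.EBQ (T ones wd cw Pre kap Hh)
open Pool.Agent.TH930.PS (exists_eta lin_le_exp card_trivial)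

/-- the first failure of the prefix condition -/
theorem first_fail {k : ℤ} {Q n : ℕ} (hQ : 1 ≤ Q) {x : ℤ}
    (h : ¬ ∀ j ≤ n, 2 ^ j ≤ Q * 3 ^ ones (wd k j x)) :
    ∃ j ≤ n, Q * 3 ^ ones (wd k j x) < 2 ^ j ∧ cw (wd k j x) ≤ 4 * j * 2 ^ j := by
  classical
  have hex : ∃ j, j ≤ n ∧ Q * 3 ^ ones (wd k j x) < 2 ^ j := by
    by_contra hcon
    push Not at hcon
    exact h hcon
  obtain ⟨hj1, hj2⟩ := Nat.find_spec hex
  set j := Nat.find hex with hj
  have hmin : ∀ i < j, 2 ^ i ≤ Q * 3 ^ ones (wd k i x) := by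
    intro i hi
    have := Nat.find_min hex hi
    push Not at this
    exact this (by omega)
  refine ⟨j, hj1, hj2, ?_⟩
  have hj0 : j ≠ 0 := by
    intro h0
    rw [h0] at hj2
    simp [wd] at hj2
    omega
  obtain ⟨i, hi⟩ := Nat.exists_eq_succ_of_ne_zero hj0
  rw [Nat.succ_eq_add_one] at hi
  have hpre : Pre Q (wd k i x) := by
    intro a ha
    rw [EBQ.wd_length] at ha
    rw [EBQ.wd_take k ha]
    exact hmin a (by omega)
  have h1 := EBQ.cw_le hpre
  rw [EBQ.wd_length] at h1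
  have e : wd k j x = wd k i x ++ wd k 1 ((T k)^[i] x) := by rw [hi, EBQ.wd_append]
  have hone : ones (wd k 1 ((T k)^[i] x)) ≤ 1 := by
    have := EBQ.ones_le_length (wd k 1 ((T k)^[i] x))
    rwa [EBQ.wd_length] at this
  have hcw1 : cw (wd k 1 ((T k)^[i] x)) ≤ 1 := by
    simp only [wd]
    cases decide ((T k)^[i] x % 2 = 1) <;> simp
  have hones : ones (wd k j x) = ones (wd k i x) + ones (wd k 1 ((T k)^[i] x)) := by
    rw [e, EBQ.ones_append]
  have h2 : Q * 3 ^ ones (wd k i x) ≤ 2 ^ j := by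
    have h3 : 3 ^ ones (wd k i x) ≤ 3 ^ ones (wd k j x) :=
      Nat.pow_le_pow_right (by norm_num) (by omega)
    exact (Nat.mul_le_mul_left Q h3).trans hj2.le
  rw [e, EBQ.cw_append, EBQ.wd_length]
  have h4 : cw (wd k i x) ≤ i * 2 ^ j := by
    calc cw (wd k i x) ≤ Q * i * 3 ^ ones (wd k i x) := h1
      _ = i * (Q * 3 ^ ones (wd k i x)) := by ring
      _ ≤ i * 2 ^ j := Nat.mul_le_mul_left i h2
  have h5 : 3 ^ ones (wd k 1 ((T k)^[i] x)) ≤ 3 := by
    calc 3 ^ ones (wd k 1 ((T k)^[i] x)) ≤ 3 ^ 1 := Nat.pow_le_pow_right (by norm_num) hone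
      _ = 3 := pow_one 3
  have h6 : 2 ^ i ≤ 2 ^ j := Nat.pow_le_pow_right (by norm_num) (by omega)
  calc 3 ^ ones (wd k 1 ((T k)^[i] x)) * cw (wd k i x) + 2 ^ i * cw (wd k 1 ((T k)^[i] x))
      ≤ 3 * (i * 2 ^ j) + 2 ^ j * 1 :=
        add_le_add (Nat.mul_le_mul h5 h4) (Nat.mul_le_mul h6 hcw1)
    _ ≤ 4 * j * 2 ^ j := by
        rw [hi]
        have : 0 ≤ 2 ^ (i + 1) := Nat.zero_le _
        nlinarith

/-- multiplication by `k` conjugates the `3x+1` map to the `3x+k` map -/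
theorem T_mul {k : ℤ} (hk : Odd k) (z : ℤ) : T k (k * z) = k * T 1 z := by
  have h1 := EBQ.two_T hk (k * z)
  have h2 := EBQ.two_T odd_one z
  obtain ⟨t, ht⟩ := hk
  have hpar : (k * z) % 2 = z % 2 := by
    rw [ht, Int.mul_emod, Int.add_emod, Int.mul_emod_right]
    norm_num
  rw [hpar] at h1
  rcases Int.emod_two_eq_zero_or_one z with h | h
  · rw [if_neg (by omega)] at h1 h2
    have : 2 * T k (k * z) = 2 * (k * T 1 z) := by rw [h1]; linear_combination (-k) * h2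
    omega
  · rw [if_pos h] at h1 h2
    have : 2 * T k (k * z) = 2 * (k * T 1 z) := by rw [h1]; linear_combination (-k) * h2
    omega

theorem wd_mul {k : ℤ} (hk : Odd k) (n : ℕ) (z : ℤ) : wd k n (k * z) = wd 1 n z := by
  induction n generalizing z with
  | zero => rfl
  | succ n ih =>
    simp only [wd]
    rw [T_mul hk, ih]
    congr 1
    obtain ⟨t, ht⟩ := hk
    have hpar : (k * z) % 2 = z % 2 := by
      rw [ht, Int.mul_emod, Int.add_emod, Int.mul_emod_right]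
      norm_num
    rw [hpar]

/-- THE COUNTING THEOREM FOR THE `3x+k` MAPS AT THE SCALE `|k|` -/
theorem count_k : ∃ τ c C μ : ℝ, 0 < τ ∧ τ ≤ 1 / 4 ∧ 0 < c ∧ 0 < C ∧ 0 < μ ∧ μ ≤ 1 ∧
    ∀ k : ℤ, Odd k → ∀ W Q : ℕ, 1 ≤ Q → (Q : ℝ) ≤ Real.exp (μ * W) →
    ∀ (u : ℤ) (B : Finset ℤ), (∀ x ∈ B, |x - u| ≤ |k| * 2 ^ W ∧
      ∀ j ≤ W + ⌊τ * W⌋₊, 2 ^ j ≤ Q * 3 ^ ones (wd k j x)) →
      (B.card : ℝ) ≤ |(k : ℝ)| * (C * Real.exp (W * (Hh - c))) := by
  classical
  obtain ⟨τ, c, C, μ, hτ0, hτ1, hc, hC, hμ0, hμ1, hmain⟩ := EBQ.count_main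
  refine ⟨τ, c, 3 * C, μ, hτ0, hτ1, hc, by positivity, hμ0, hμ1, ?_⟩
  intro k hk W Q hQ1 hQ u B hB
  have hk0 : k ≠ 0 := by rintro rfl; simp at hk
  have hka : 0 < |k| := abs_pos.2 hk0
  set K : ℕ := W + ⌊τ * (W : ℝ)⌋₊ with hK
  set E : ℝ := C * Real.exp (W * (Hh - c)) with hE
  have hE0 : 0 ≤ E := by positivity
  have hmaps : ∀ x ∈ B, (x % k).toNat ∈ range k.natAbs := by
    intro x _
    rw [mem_range]
    have h1 := Int.emod_nonneg x hk0
    have h2 := Int.emod_lt_abs x hk0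
    rw [Int.abs_eq_natAbs] at h2
    omega
  have hfib : ∀ r ∈ range k.natAbs, ((B.filter (fun x => (x % k).toNat = r)).card : ℝ) ≤ 3 * E := by
    intro r hr
    -- the shift
    obtain ⟨s, hs⟩ : ∃ s : ℤ, (2 : ℤ) ^ K ∣ k * s - r := by
      have hco : IsCoprime k ((2 : ℤ) ^ K) := by
        apply IsCoprime.pow_right
        rw [Int.isCoprime_iff_gcd_eq_one]
        have h2 := Int.odd_iff.1 hk
        have h3 : Int.gcd k 2 ∣ 2 := by exact_mod_cast Int.gcd_dvd_natAbs_right k 2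
        rcases (Nat.dvd_prime Nat.prime_two).1 h3 with h | h
        · exact h
        · exfalso
          have : (2 : ℤ) ∣ k := by
            have := Int.gcd_dvd_left k 2
            rw [h] at this; exact_mod_cast this
          omega
      obtain ⟨a, b, hab⟩ := hco
      exact ⟨a * r, -(b * r), by linear_combination (r : ℤ) * hab⟩
    set F := B.filter (fun x => (x % k).toNat = r) with hF
    set f : ℤ → ℤ := fun x => x / k + s with hf
    have hrx : ∀ x ∈ F, x ∈ B ∧ k * (x / k) + r = x := by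
      intro x hx
      rw [hF, mem_filter] at hx
      refine ⟨hx.1, ?_⟩
      have h1 := Int.emod_nonneg x hk0
      have h2 : (r : ℤ) = x % k := by rw [← hx.2, Int.toNat_of_nonneg h1]
      rw [h2]
      exact Int.mul_ediv_add_emod x k
    have hinj : Set.InjOn f F := by
      intro x hx y hy hxy
      rw [mem_coe] at hx hy
      simp only [hf] at hxy
      have h1 := (hrx x hx).2
      have h2 := (hrx y hy).2
      have h3 : x / k = y / k := by omega
      rw [← h1, ← h2, h3]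
    have hwd : ∀ x ∈ F, ∀ j ≤ K, wd 1 j (f x) = wd k j x := by
      intro x hx j hj
      rw [← wd_mul hk]
      apply EBQ.wd_congr hk
      refine dvd_trans (pow_dvd_pow 2 hj) ?_
      have h1 := (hrx x hx).2
      have : k * f x - x = k * s - r := by
        simp only [hf]
        linear_combination h1
      rw [this]; exact hs
    set u' : ℤ := u / k + s with hu'
    have hclose : ∀ x ∈ F, |f x - u'| ≤ 2 ^ W + 1 := by
      intro x hx
      have h1 := (hB x (hrx x hx).1).1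
      have e1 := Int.mul_ediv_add_emod x k
      have e2 := Int.mul_ediv_add_emod u k
      have a1 := Int.emod_nonneg x hk0
      have a2 := Int.emod_lt_abs x hk0
      have a3 := Int.emod_nonneg u hk0
      have a4 := Int.emod_lt_abs u hk0
      have e3 : f x - u' = x / k - u / k := by simp only [hf, hu']; ring
      rw [e3]
      have h2 : |k| * |x / k - u / k| ≤ |k| * (2 ^ W + 1) := by
        rw [← abs_mul]
        have e4 : k * (x / k - u / k) = (x - u) - (x % k - u % k) := by linear_combination e1 - e2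
        rw [e4]
        have h3 := abs_sub (x - u) (x % k - u % k)
        have h4 : |x % k - u % k| ≤ |k| := by
          rw [abs_le]; constructor <;> linarith
        linarith
      exact le_of_mul_le_mul_left h2 hka
    -- three intervals
    have hcov : F.image f ⊆ ((F.image f).filter (fun z => |z - (u' - 2)| ≤ 2 ^ W) ∪
        (F.image f).filter (fun z => |z - u'| ≤ 2 ^ W)) ∪
        (F.image f).filter (fun z => |z - (u' + 2)| ≤ 2 ^ W) := by
      intro z hz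
      have hz' := hz
      rw [mem_image] at hz'
      obtain ⟨x, hx, rfl⟩ := hz'
      have h1 := abs_le.1 (hclose x hx)
      have h2 : (1 : ℤ) ≤ 2 ^ W := one_le_pow₀ (by norm_num)
      rw [mem_union, mem_union, mem_filter, mem_filter, mem_filter]
      rcases lt_or_ge (f x - u') (-2 ^ W) with h3 | h3
      · left; left
        refine ⟨hz, ?_⟩
        rw [abs_le]; constructor <;> linarith [h1.1, h1.2]
      rcases lt_or_ge (2 ^ W) (f x - u') with h4 | h4
      · right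
        refine ⟨hz, ?_⟩
        rw [abs_le]; constructor <;> linarith [h1.1, h1.2]
      · left; right
        exact ⟨hz, abs_le.2 ⟨h3, h4⟩⟩
    have hpiece : ∀ v : ℤ, ((((F.image f).filter (fun z => |z - v| ≤ 2 ^ W)).card : ℕ) : ℝ) ≤ E := by
      intro v
      apply hmain 1 odd_one W Q hQ1 hQ (by
        rw [Int.cast_one, abs_one]
        apply Real.one_le_exp
        positivity) v
      intro z hz
      rw [mem_filter, mem_image] at hz
      obtain ⟨⟨x, hx, rfl⟩, hz2⟩ := hz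
      refine ⟨hz2, fun j hj => ?_⟩
      rw [hwd x hx j hj]
      exact (hB x (hrx x hx).1).2 j hj
    have h1 := (card_le_card hcov).trans ((card_union_le _ _).trans
      (Nat.add_le_add_right (card_union_le _ _) _))
    rw [card_image_of_injOn hinj] at h1
    have h2 : (F.card : ℝ) ≤
        ((((F.image f).filter (fun z => |z - (u' - 2)| ≤ 2 ^ W)).card : ℕ) : ℝ) +
        ((((F.image f).filter (fun z => |z - u'| ≤ 2 ^ W)).card : ℕ) : ℝ) +
        ((((F.image f).filter (fun z => |z - (u' + 2)| ≤ 2 ^ W)).card : ℕ) : ℝ) := by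
      exact_mod_cast h1
    have h3 := hpiece (u' - 2)
    have h4 := hpiece u'
    have h5 := hpiece (u' + 2)
    linarith
  have h1 : (B.card : ℝ) = ∑ r ∈ range k.natAbs, ((B.filter (fun x => (x % k).toNat = r)).card : ℝ) := by
    exact_mod_cast card_eq_sum_card_fiberwise hmaps
  rw [h1]
  refine (sum_le_card_nsmul _ _ _ hfib).trans (le_of_eq ?_)
  rw [card_range, nsmul_eq_mul, hE, Nat.cast_natAbs, Int.cast_abs]
  ring

/-- the image under a short word falls into a shorter interval -/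
theorem image_short {k : ℤ} (hk : Odd k) {W q j o : ℕ} (hqW : q ≤ W) {x u : ℤ}
    (hx : |x - u| ≤ |k| * 2 ^ W)
    (ho : ones (wd k j x) = o) (hj : 2 ^ q * 3 ^ o < 2 ^ j) (hcw : cw (wd k j x) ≤ 4 * j * 2 ^ j)
    (hsm : (1 : ℤ) + 4 * j ≤ 2 ^ (W - q)) :
    |(T k)^[j] x - (3 ^ o * u) / 2 ^ j| ≤ |k| * 2 ^ (W - q + 1) := by
  have h1 := EBQ.iter_eq hk j x
  rw [ho] at h1
  have hk0 : k ≠ 0 := by rintro rfl; simp at hk
  have hk1 : 1 ≤ |k| := Int.one_le_abs hk0
  set z := (T k)^[j] x with hz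
  set c : ℤ := (cw (wd k j x) : ℤ) with hc
  have hc0 : 0 ≤ c := by rw [hc]; positivity
  have hc1 : c ≤ 4 * j * 2 ^ j := by rw [hc]; exact_mod_cast hcw
  have hD : (0 : ℤ) < 2 ^ j := by positivity
  set u' : ℤ := (3 ^ o * u) / 2 ^ j with hu'
  have h2 : 2 ^ j * u' = 3 ^ o * u - (3 ^ o * u) % 2 ^ j := by
    have := Int.mul_ediv_add_emod (3 ^ o * u) (2 ^ j)
    rw [← hu'] at this
    linarith
  have h3 : 0 ≤ (3 ^ o * u) % 2 ^ j := Int.emod_nonneg _ hD.ne'
  have h4 : (3 ^ o * u) % 2 ^ j < 2 ^ j := Int.emod_lt_of_pos _ hD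
  have h5 : 2 ^ j * (z - u') = 3 ^ o * (x - u) + (3 ^ o * u) % 2 ^ j + k * c := by
    linear_combination h1 - h2
  have h6 : (2 : ℤ) ^ j * |z - u'| ≤ 2 ^ j * (|k| * 2 ^ (W - q + 1)) := by
    calc (2 : ℤ) ^ j * |z - u'| = |2 ^ j * (z - u')| := by rw [abs_mul, abs_of_pos hD]
      _ = |3 ^ o * (x - u) + (3 ^ o * u) % 2 ^ j + k * c| := by rw [h5]
      _ ≤ |3 ^ o * (x - u)| + |(3 ^ o * u) % 2 ^ j| + |k * c| := abs_add_three _ _ _
      _ ≤ 3 ^ o * (|k| * 2 ^ W) + |k| * 2 ^ j + |k| * (4 * j * 2 ^ j) := by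
          rw [abs_mul, abs_mul, abs_of_nonneg h3, abs_of_nonneg hc0,
            abs_of_pos (show (0 : ℤ) < 3 ^ o by positivity)]
          have a1 : (3 : ℤ) ^ o * |x - u| ≤ 3 ^ o * (|k| * 2 ^ W) :=
            mul_le_mul_of_nonneg_left hx (by positivity)
          have a2 : |k| * c ≤ |k| * (4 * j * 2 ^ j) := mul_le_mul_of_nonneg_left hc1 (abs_nonneg _)
          have a3 : (2 : ℤ) ^ j ≤ |k| * 2 ^ j := le_mul_of_one_le_left hD.le hk1
          linarith
      _ ≤ 2 ^ j * (|k| * 2 ^ (W - q)) + 2 ^ j * (|k| * (1 + 4 * j)) := by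
          have a1 : (2 : ℤ) ^ q * 3 ^ o ≤ 2 ^ j := by exact_mod_cast hj.le
          have a2 : (3 : ℤ) ^ o * (|k| * 2 ^ W) = (2 ^ q * 3 ^ o) * (|k| * 2 ^ (W - q)) := by
            have : (2 : ℤ) ^ W = 2 ^ q * 2 ^ (W - q) := by rw [← pow_add]; congr 1; omega
            rw [this]; ring
          have a3 : (2 ^ q * 3 ^ o) * (|k| * 2 ^ (W - q)) ≤ (2 : ℤ) ^ j * (|k| * 2 ^ (W - q)) :=
            mul_le_mul_of_nonneg_right a1 (by positivity)
          rw [a2]
          linarith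
      _ ≤ 2 ^ j * (|k| * 2 ^ (W - q)) + 2 ^ j * (|k| * 2 ^ (W - q)) := by
          have := mul_le_mul_of_nonneg_left (mul_le_mul_of_nonneg_left hsm (abs_nonneg k)) hD.le
          linarith
      _ = 2 ^ j * (|k| * 2 ^ (W - q + 1)) := by rw [pow_succ]; ring
  exact le_of_mul_le_mul_left h6 hD

/-- a bound for the elements of `S` in every interval of radius `|k| 2^W` -/
def Bd (k : ℤ) (S : Set ℤ) (W : ℕ) (N : ℝ) : Prop :=
  ∀ (u : ℤ) (F : Finset ℤ), (∀ x ∈ F, x ∈ S ∧ |x - u| ≤ |k| * 2 ^ W) → (F.card : ℝ) ≤ N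

/-- the recursion -/
theorem rec_loc {k : ℤ} (hk : Odd k) {S : Set ℤ} (hS : Tame (T k) S) {W q n : ℕ} (hqW : q ≤ W)
    (hn : n ≤ 2 * W) (hsm : (1 : ℤ) + 8 * W ≤ 2 ^ (W - q)) {N E : ℝ}
    (hN : Bd k S (W - q + 1) N)
    (hE : ∀ (u : ℤ) (F : Finset ℤ), (∀ x ∈ F, |x - u| ≤ |k| * 2 ^ W ∧
      ∀ j ≤ n, 2 ^ j ≤ 2 ^ q * 3 ^ ones (wd k j x)) → (F.card : ℝ) ≤ E) :
    Bd k S W ((2 * W + 1) ^ 2 * (N + 2 * W) + E) := by
  classical
  intro u F hF
  set P : ℤ → Prop := fun x => ∀ j ≤ n, 2 ^ j ≤ 2 ^ q * 3 ^ ones (wd k j x) with hP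
  set F2 := F.filter P with hF2
  set F1 := F.filter (fun x => ¬ P x) with hF1
  have hsplit : (F.card : ℝ) = F2.card + F1.card := by
    rw [hF1, hF2]; exact_mod_cast (card_filter_add_card_filter_not (s := F) P).symm
  have hc2 : (F2.card : ℝ) ≤ E := by
    apply hE u
    intro x hx
    rw [hF2, mem_filter] at hx
    exact ⟨(hF x hx.1).2, hx.2⟩
  set G : ℕ × ℕ → Finset ℤ := fun p => F.filter (fun x => ones (wd k p.1 x) = p.2 ∧
    2 ^ q * 3 ^ p.2 < 2 ^ p.1 ∧ cw (wd k p.1 x) ≤ 4 * p.1 * 2 ^ p.1) with hG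
  have hsub : F1 ⊆ (range (2 * W + 1) ×ˢ range (2 * W + 1)).biUnion G := by
    intro x hx
    rw [hF1, mem_filter] at hx
    obtain ⟨hxF, hxP⟩ := hx
    obtain ⟨j, hj, h1, h2⟩ := first_fail (Nat.one_le_two_pow) hxP
    rw [mem_biUnion]
    refine ⟨(j, ones (wd k j x)), ?_, ?_⟩
    · rw [mem_product, mem_range, mem_range]
      have := EBQ.ones_le_length (wd k j x)
      rw [EBQ.wd_length] at this
      simp only
      omega
    · rw [hG]
      simp only [mem_filter]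
      exact ⟨hxF, trivial, h1, h2⟩
  have hcG : ∀ p ∈ range (2 * W + 1) ×ˢ range (2 * W + 1), ((G p).card : ℝ) ≤ N + 2 * W := by
    rintro ⟨j, o⟩ hp
    rw [mem_product, mem_range, mem_range] at hp
    simp only at hp
    obtain ⟨B, hBc, hmap, hinj⟩ := hS j
    set Gp := G (j, o) with hGp
    have hmem : ∀ x ∈ Gp, x ∈ F ∧ ones (wd k j x) = o ∧ 2 ^ q * 3 ^ o < 2 ^ j ∧
        cw (wd k j x) ≤ 4 * j * 2 ^ j := by
      intro x hx
      rw [hGp, hG] at hx
      simp only [mem_filter] at hx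
      exact hx
    have h4 : Gp ⊆ (Gp \ B) ∪ B := by
      intro x hx
      rw [mem_union, Finset.mem_sdiff]
      by_cases h : x ∈ B
      · exact Or.inr h
      · exact Or.inl ⟨hx, h⟩
    have h5 := (card_le_card h4).trans (card_union_le _ _)
    have h6 : ((Gp \ B).card : ℝ) ≤ N := by
      have hio : Set.InjOn ((T k)^[j]) (Gp \ B : Finset ℤ) := by
        intro x hx y hy hxy
        have hx := Finset.mem_sdiff.1 hx
        have hy := Finset.mem_sdiff.1 hy
        exact hinj x (hF x (hmem x hx.1).1).1 y (hF y (hmem y hy.1).1).1 hx.2 hy.2 hxy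
      rw [← card_image_of_injOn hio]
      apply hN ((3 ^ o * u) / 2 ^ j)
      intro y hy
      rw [mem_image] at hy
      obtain ⟨x, hx, rfl⟩ := hy
      have hx := Finset.mem_sdiff.1 hx
      obtain ⟨a1, a2, a3, a4⟩ := hmem x hx.1
      refine ⟨hmap x (hF x a1).1 hx.2, ?_⟩
      apply image_short hk hqW (hF x a1).2 a2 a3 a4
      refine le_trans ?_ hsm
      have h7 : (j : ℤ) ≤ 2 * W := by
        have : j ≤ 2 * W := by omega
        exact_mod_cast this
      linarith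
    have h7 : (Gp.card : ℝ) ≤ (Gp \ B).card + B.card := by exact_mod_cast h5
    have h8 : (B.card : ℝ) ≤ 2 * W := by
      have : B.card ≤ 2 * W := hBc.trans (by omega)
      exact_mod_cast this
    linarith
  have hc1 : (F1.card : ℝ) ≤ (2 * W + 1) ^ 2 * (N + 2 * W) := by
    have h1 : (F1.card : ℝ) ≤ ∑ p ∈ range (2 * W + 1) ×ˢ range (2 * W + 1), ((G p).card : ℝ) := by
      exact_mod_cast (card_le_card hsub).trans card_biUnion_le
    refine (h1.trans (sum_le_card_nsmul _ _ _ hcG)).trans (le_of_eq ?_)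
    rw [card_product, card_range, nsmul_eq_mul]
    push_cast
    ring
  rw [hsplit]
  linarith

/-- LOCAL SPARSITY BELOW THE ENTROPY EXPONENT, in dyadic form -/
theorem sparse_dyadic : ∃ η A : ℝ, 12 / 13 < η ∧ η < beta ∧ 0 < A ∧
    ∀ k : ℤ, Odd k → ∀ S : Set ℤ, Tame (T k) S → ∀ W : ℕ,
      Bd k S W (A * |(k : ℝ)| * (2 : ℝ) ^ (η * W)) := by
  classical
  obtain ⟨τ, c, C, μ0, hτ0, hτ1, hc, hC, hμ0, hμ1, hmain⟩ := count_k
  obtain ⟨η0, hη0, hη1, hη0e⟩ := exists_eta hc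
  have hbg := beta_gt
  have hbl := beta_lt
  obtain ⟨η, hη2, hηb⟩ := exists_between (max_lt hη1 hbg)
  have hη3 : η0 < η := (le_max_left _ _).trans_lt hη2
  have hη4 : 12 / 13 < η := (le_max_right _ _).trans_lt hη2
  have hηp : 0 < η := by linarith
  have hl2 : 0 < Real.log 2 := Real.log_pos (by norm_num)
  have hl2a := Real.log_two_gt_d9
  have hl2b := Real.log_two_lt_d9
  -- parameters
  set δ : ℝ := min (1 / 4) μ0 with hδ
  have hδ0 : 0 < δ := lt_min (by norm_num) hμ0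
  have hδ4 : δ ≤ 1 / 4 := min_le_left _ _
  have hδμ : δ ≤ μ0 := min_le_right _ _
  -- large `W`
  have e1 := lin_le_exp (a := 1 / 16) (by norm_num) 9
  have e2 : ∀ᶠ W : ℕ in atTop, (3 : ℝ) / δ ≤ (W : ℝ) :=
    tendsto_natCast_atTop_atTop.eventually_ge_atTop _
  have e3 : ∀ᶠ W : ℕ in atTop, 8 * (2 * (W : ℝ) + 2) ^ 3 ≤ Real.exp (η * δ * Real.log 2 / 2 * W) := by
    have h1 := lin_le_exp (a := η * δ * Real.log 2 / 6) (by positivity) 4
    filter_upwards [h1] with W hW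
    have hW0 : (0 : ℝ) ≤ W := Nat.cast_nonneg W
    calc 8 * (2 * (W : ℝ) + 2) ^ 3 = (4 * ((W : ℝ) + 1)) ^ 3 := by ring
      _ ≤ (Real.exp (η * δ * Real.log 2 / 6 * W)) ^ 3 := pow_le_pow_left₀ (by positivity) hW 3
      _ = _ := by rw [← Real.exp_nat_mul]; congr 1; push_cast; ring
  have e4 : ∀ᶠ W : ℕ in atTop, (2 : ℝ) * (2 : ℝ) ^ (2 * η) ≤ Real.exp (η * δ * Real.log 2 / 2 * W) := by
    have h1 : Tendsto (fun W : ℕ => Real.exp (η * δ * Real.log 2 / 2 * W)) atTop atTop :=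
      Real.tendsto_exp_atTop.comp
        (Tendsto.const_mul_atTop (by positivity) tendsto_natCast_atTop_atTop)
    exact h1.eventually_ge_atTop _
  obtain ⟨W0, hW0⟩ := eventually_atTop.1 (((e1.and e2).and e3).and e4)
  set D0 : ℝ := 4 * C + 3 * 2 ^ W0 + 3 with hD0
  have hD0p : 0 < D0 := by positivity
  refine ⟨η, D0, hη4, hηb, hD0p, ?_⟩
  intro k hk S hS
  have hk0 : k ≠ 0 := by rintro rfl; simp at hk
  have hk1 : (1 : ℝ) ≤ |(k : ℝ)| := by
    have : (1 : ℤ) ≤ |k| := Int.one_le_abs hk0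
    exact_mod_cast this
  set κ : ℝ := |(k : ℝ)| with hκ
  set D : ℝ := D0 * κ with hD
  have hDp : 0 < D := by positivity
  have hD0' : D0 ≤ D := le_mul_of_one_le_right hD0p.le hk1
  intro W
  induction W using Nat.strong_induction_on with
  | _ W ih =>
  have hWn : (0 : ℝ) ≤ W := Nat.cast_nonneg W
  have h2η : (1 : ℝ) ≤ (2 : ℝ) ^ (η * W) := Real.one_le_rpow (by norm_num) (by positivity)
  rcases lt_or_ge W W0 with hsmall | hbig
  · -- small `W`
    intro u F hF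
    have htriv : (F.card : ℝ) ≤ 3 * (κ * 2 ^ W) := by
      have h2 : F ⊆ Icc (u - |k| * (2 : ℤ) ^ W) (u + |k| * 2 ^ W) := by
        intro x hx
        rw [mem_Icc]
        have := abs_le.1 (hF x hx).2
        constructor <;> linarith [this.1, this.2]
      have h3 := card_le_card h2
      rw [Int.card_Icc] at h3
      have hpos : (1 : ℤ) ≤ |k| * 2 ^ W := by
        have a1 : (1 : ℤ) ≤ 2 ^ W := one_le_pow₀ (by norm_num)
        have a2 : (1 : ℤ) ≤ |k| := Int.one_le_abs hk0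
        nlinarith
      have h4 : ((u + |k| * (2 : ℤ) ^ W + 1 - (u - |k| * (2 : ℤ) ^ W)).toNat : ℤ) ≤
          3 * (|k| * 2 ^ W) := by
        rw [Int.toNat_of_nonneg (by linarith)]
        linarith
      have h5 : (F.card : ℤ) ≤ 3 * (|k| * 2 ^ W) := le_trans (by exact_mod_cast h3) h4
      rw [hκ]
      exact_mod_cast h5
    have h1 : (2 : ℝ) ^ W ≤ 2 ^ W0 := pow_le_pow_right₀ (by norm_num) hsmall.le
    calc (F.card : ℝ) ≤ 3 * (κ * 2 ^ W) := htriv
      _ ≤ 3 * (κ * 2 ^ W0) := by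
          apply mul_le_mul_of_nonneg_left _ (by norm_num)
          exact mul_le_mul_of_nonneg_left h1 (by linarith)
      _ ≤ D := by
          rw [hD, hD0]
          have a1 : 0 ≤ C * κ := by positivity
          linarith
      _ ≤ D * (2 : ℝ) ^ (η * W) := le_mul_of_one_le_right hDp.le h2η
  · obtain ⟨⟨⟨h1, h2⟩, h3⟩, h4⟩ := hW0 W hbig
    set q : ℕ := ⌊δ * (W : ℝ)⌋₊ with hq
    have hq1 : (q : ℝ) ≤ δ * W := Nat.floor_le (by positivity)
    have hq2 : δ * W < (q : ℝ) + 1 := Nat.lt_floor_add_one _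
    have hδW : 3 ≤ δ * W := by rw [div_le_iff₀ hδ0] at h2; linarith
    have hq3 : 2 ≤ q := by
      have : (2 : ℝ) < (q : ℝ) := by linarith
      exact_mod_cast this.le
    have hqW4 : (q : ℝ) ≤ 1 / 4 * W := hq1.trans (mul_le_mul_of_nonneg_right hδ4 hWn)
    have hqW : q ≤ W := by
      have : (q : ℝ) ≤ W := by linarith
      exact_mod_cast this
    have hih := ih (W - q + 1) (by omega)
    have hsm : (1 : ℤ) + 8 * (W : ℤ) ≤ 2 ^ (W - q) := by
      have a1 : (1 : ℝ) + 8 * W ≤ (2 : ℝ) ^ (W - q) := by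
        have a2 : (1 : ℝ) + 8 * W ≤ 9 * ((W : ℝ) + 1) := by linarith
        have a4 : Real.exp (1 / 16 * W) ≤ Real.exp (Real.log 2 * (W - q : ℕ)) := by
          apply Real.exp_le_exp.2
          rw [Nat.cast_sub hqW]
          have a6 : (1 / 2 : ℝ) * (3 / 4 * W) ≤ Real.log 2 * (W - q) :=
            mul_le_mul (by linarith) (by linarith) (by positivity) (by linarith)
          linarith
        have a5 : Real.exp (Real.log 2 * (W - q : ℕ)) = (2 : ℝ) ^ (W - q) := by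
          rw [mul_comm, Real.exp_nat_mul, Real.exp_log (by norm_num)]
        rw [← a5]
        exact a2.trans (h1.trans a4)
      exact_mod_cast a1
    have hflτ : ⌊τ * (W : ℝ)⌋₊ ≤ W := by
      apply Nat.floor_le_of_le
      calc τ * (W : ℝ) ≤ 1 * W := mul_le_mul_of_nonneg_right (by linarith) hWn
        _ = W := one_mul _
    have hQexp : (((2 ^ q : ℕ)) : ℝ) ≤ Real.exp (μ0 * W) := by
      push_cast
      rw [← Real.rpow_natCast, Real.rpow_def_of_pos (by norm_num)]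
      apply Real.exp_le_exp.2
      have a1 : Real.log 2 * (q : ℝ) ≤ 1 * (δ * W) :=
        mul_le_mul (by linarith) hq1 (Nat.cast_nonneg _) (by norm_num)
      have a2 : δ * W ≤ μ0 * W := mul_le_mul_of_nonneg_right hδμ hWn
      linarith
    have hrec := rec_loc hk hS (W := W) (q := q) (n := W + ⌊τ * (W : ℝ)⌋₊) hqW (by omega) hsm
      (N := D * (2 : ℝ) ^ (η * (W - q + 1 : ℕ))) (E := κ * (C * Real.exp (W * (Hh - c))))
      hih (fun u F hF => hmain k hk W (2 ^ q) Nat.one_le_two_pow hQexp u F hF)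
    intro u F hF
    refine (hrec u F hF).trans ?_
    -- the arithmetic
    have k1 : κ * (C * Real.exp (W * (Hh - c))) ≤ D / 4 * (2 : ℝ) ^ (η * W) := by
      have a1 := hη0e W
      have a2 : ((2 : ℝ) ^ η0) ^ W ≤ (2 : ℝ) ^ (η * W) := by
        rw [← Real.rpow_natCast, ← Real.rpow_mul (by norm_num)]
        apply Real.rpow_le_rpow_of_exponent_le (by norm_num)
        exact mul_le_mul_of_nonneg_right hη3.le hWn
      have a3 : κ * C ≤ D / 4 := by
        rw [hD, hD0]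
        have : 0 ≤ (3 : ℝ) * 2 ^ W0 * κ := by positivity
        linarith
      rw [← mul_assoc]
      exact mul_le_mul a3 (a1.trans a2) (Real.exp_pos _).le (by positivity)
    set X : ℝ := Real.exp (η * δ * Real.log 2 / 2 * W) with hX
    have hX0 : 0 < X := Real.exp_pos _
    have k2 : (2 : ℝ) ^ (η * (W - q + 1 : ℕ)) * (X * X) ≤ (2 : ℝ) ^ (2 * η) * (2 : ℝ) ^ (η * W) := by
      have a1 : X * X = (2 : ℝ) ^ (η * δ * W) := by
        rw [hX, ← Real.exp_add, Real.rpow_def_of_pos (by norm_num)]; congr 1; ring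
      rw [a1, ← Real.rpow_add (by norm_num), ← Real.rpow_add (by norm_num)]
      apply Real.rpow_le_rpow_of_exponent_le (by norm_num)
      push_cast
      rw [Nat.cast_sub hqW]
      have a2 : η * (δ * W) ≤ η * ((q : ℝ) + 1) := mul_le_mul_of_nonneg_left hq2.le hηp.le
      linarith
    have k3 : (2 * (W : ℝ) + 1) ^ 2 * (D * (2 : ℝ) ^ (η * (W - q + 1 : ℕ))) ≤
        D / 4 * (2 : ℝ) ^ (η * W) := by
      have hXX : 0 < X * X := by positivity
      have a0 : (2 * (W : ℝ) + 1) ^ 2 ≤ (2 * (W : ℝ) + 2) ^ 3 := by nlinarith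
      have a1 : 8 * (2 * (W : ℝ) + 1) ^ 2 ≤ X := by linarith
      have a2 : 8 * (2 * (W : ℝ) + 1) ^ 2 * (2 * (2 : ℝ) ^ (2 * η)) ≤ X * X :=
        mul_le_mul a1 h4 (by positivity) hX0.le
      have a3 : ((2 * (W : ℝ) + 1) ^ 2 * (D * (2 : ℝ) ^ (η * (W - q + 1 : ℕ)))) * (X * X) ≤
          (D / 4 * (2 : ℝ) ^ (η * W)) * (X * X) := by
        calc ((2 * (W : ℝ) + 1) ^ 2 * (D * (2 : ℝ) ^ (η * (W - q + 1 : ℕ)))) * (X * X)
            = (2 * (W : ℝ) + 1) ^ 2 * D * ((2 : ℝ) ^ (η * (W - q + 1 : ℕ)) * (X * X)) := by ring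
          _ ≤ (2 * (W : ℝ) + 1) ^ 2 * D * ((2 : ℝ) ^ (2 * η) * (2 : ℝ) ^ (η * W)) :=
              mul_le_mul_of_nonneg_left k2 (by positivity)
          _ = D / 16 * (2 : ℝ) ^ (η * W) *
              (8 * (2 * (W : ℝ) + 1) ^ 2 * (2 * (2 : ℝ) ^ (2 * η))) := by ring
          _ ≤ D / 16 * (2 : ℝ) ^ (η * W) * (X * X) := mul_le_mul_of_nonneg_left a2 (by positivity)
          _ ≤ (D / 4 * (2 : ℝ) ^ (η * W)) * (X * X) := by
              have : 0 ≤ D * (2 : ℝ) ^ (η * W) * (X * X) := by positivity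
              linarith
      exact le_of_mul_le_mul_right a3 hXX
    have k4 : (2 * (W : ℝ) + 1) ^ 2 * (2 * W) ≤ D / 4 * (2 : ℝ) ^ (η * W) := by
      have a1 : (2 * (W : ℝ) + 1) ^ 2 * (2 * W) ≤ (2 * (W : ℝ) + 2) ^ 3 := by nlinarith
      have a2 : X ≤ (2 : ℝ) ^ (η * W) := by
        rw [hX, Real.rpow_def_of_pos (by norm_num)]
        apply Real.exp_le_exp.2
        have : η * Real.log 2 * W * (δ / 2) ≤ η * Real.log 2 * W * 1 :=
          mul_le_mul_of_nonneg_left (by linarith) (by positivity)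
        linarith
      have a3 : (1 : ℝ) / 8 ≤ D / 4 := by
        have : 0 ≤ (3 : ℝ) * 2 ^ W0 := by positivity
        linarith
      calc (2 * (W : ℝ) + 1) ^ 2 * (2 * W) ≤ 1 / 8 * X := by linarith
        _ ≤ D / 4 * (2 : ℝ) ^ (η * W) := mul_le_mul a3 a2 hX0.le (by positivity)
    have k5 : 0 ≤ D * (2 : ℝ) ^ (η * W) := by positivity
    have k6 : (2 * (W : ℝ) + 1) ^ 2 * (D * (2 : ℝ) ^ (η * (W - q + 1 : ℕ)) + 2 * W) +
        κ * (C * Real.exp (W * (Hh - c))) ≤ D * (2 : ℝ) ^ (η * W) := by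
      rw [mul_add]
      linarith
    exact k6

/-- LOCAL SPARSITY BELOW THE ENTROPY EXPONENT: every real interval `[y - R, y + R]` contains at most
`A |k|^(1-η) R^η` elements of a tame set of the `3x+k` map, `η < H(log_3 2)` -/
theorem sparse_loc : ∃ η A : ℝ, 12 / 13 < η ∧ η < beta ∧ 0 < A ∧
    ∀ k : ℤ, Odd k → ∀ S : Set ℤ, Tame (T k) S → ∀ y R : ℝ, 1 ≤ R → ∀ F : Finset ℤ,
      (∀ x ∈ F, x ∈ S ∧ |(x : ℝ) - y| ≤ R) → (F.card : ℝ) ≤ A * |(k : ℝ)| ^ (1 - η) * R ^ η := by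
  obtain ⟨η, A, hη, hηb, hA, h⟩ := sparse_dyadic
  have hbl := beta_lt
  refine ⟨η, 4 * A + 3, hη, hηb, by positivity, ?_⟩
  intro k hk S hS y R hR F hF
  have hR0 : 0 < R := by linarith
  have hk0 : k ≠ 0 := by rintro rfl; simp at hk
  have hk1 : (1 : ℝ) ≤ |(k : ℝ)| := by
    have : (1 : ℤ) ≤ |k| := Int.one_le_abs hk0
    exact_mod_cast this
  set κ : ℝ := |(k : ℝ)| with hκ
  have hκ0 : 0 < κ := by linarith
  have hη1 : 0 < 1 - η := by linarith
  rcases lt_or_ge R κ with hsm | hbig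
  · -- trivial bound
    have h1 : (F.card : ℝ) ≤ 3 * R := by
      have h2 : F ⊆ Icc ⌈y - R⌉ ⌊y + R⌋ := by
        intro x hx
        have h3 := abs_le.1 (hF x hx).2
        rw [mem_Icc]
        exact ⟨Int.ceil_le.2 (by linarith [h3.1]), Int.le_floor.2 (by linarith [h3.2])⟩
      have h3 := card_le_card h2
      rw [Int.card_Icc] at h3
      have h4 := Int.floor_le (y + R)
      have h5 := Int.le_ceil (y - R)
      rcases le_or_gt 0 (⌊y + R⌋ + 1 - ⌈y - R⌉) with h6 | h6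
      · have h7 : ((⌊y + R⌋ + 1 - ⌈y - R⌉).toNat : ℝ) = (⌊y + R⌋ : ℝ) + 1 - ⌈y - R⌉ := by
          have : ((⌊y + R⌋ + 1 - ⌈y - R⌉).toNat : ℤ) = ⌊y + R⌋ + 1 - ⌈y - R⌉ := Int.toNat_of_nonneg h6
          exact_mod_cast this
        have h8 : (F.card : ℝ) ≤ ((⌊y + R⌋ + 1 - ⌈y - R⌉).toNat : ℝ) := by exact_mod_cast h3
        linarith
      · have h7 : F.card = 0 := by omega
        rw [h7, Nat.cast_zero]; positivity
    have h2 : R = R ^ (1 - η) * R ^ η := by
      rw [← Real.rpow_add hR0]; simp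
    have h3 : R ^ (1 - η) ≤ κ ^ (1 - η) := Real.rpow_le_rpow hR0.le hsm.le hη1.le
    have h4 : R ≤ κ ^ (1 - η) * R ^ η := by
      calc R = R ^ (1 - η) * R ^ η := h2
        _ ≤ _ := mul_le_mul_of_nonneg_right h3 (by positivity)
    have h5 : 0 ≤ κ ^ (1 - η) * R ^ η := by positivity
    calc (F.card : ℝ) ≤ 3 * R := h1
      _ ≤ 3 * (κ ^ (1 - η) * R ^ η) := by linarith
      _ ≤ (4 * A + 3) * (κ ^ (1 - η) * R ^ η) := mul_le_mul_of_nonneg_right (by linarith) h5
      _ = _ := by ring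
  -- a power of two
  set Z : ℝ := R / κ with hZ
  have hZ1 : 1 ≤ Z := by rw [hZ, le_div_iff₀ hκ0]; linarith
  have hZ0 : 0 < Z := by linarith
  obtain ⟨W, hW1, hW2⟩ : ∃ W : ℕ, Z + 1 ≤ (2 : ℝ) ^ W ∧ (2 : ℝ) ^ W ≤ 4 * Z := by
    have hfl : ⌊Z⌋₊ ≠ 0 := by
      have : 1 ≤ ⌊Z⌋₊ := Nat.le_floor (by exact_mod_cast hZ1)
      omega
    refine ⟨Nat.log 2 ⌊Z⌋₊ + 2, ?_, ?_⟩
    · have h1 : ⌊Z⌋₊ < 2 ^ (Nat.log 2 ⌊Z⌋₊ + 1) := Nat.lt_pow_succ_log_self (by norm_num) _
      have h2 : ((⌊Z⌋₊ + 1 : ℕ) : ℝ) ≤ (2 : ℝ) ^ (Nat.log 2 ⌊Z⌋₊ + 1) := by exact_mod_cast h1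
      have h3 := Nat.lt_floor_add_one Z
      push_cast at h2
      rw [pow_succ]
      linarith
    · have h1 : 2 ^ (Nat.log 2 ⌊Z⌋₊) ≤ ⌊Z⌋₊ := Nat.pow_log_le_self 2 hfl
      have h2 : ((2 : ℝ) ^ (Nat.log 2 ⌊Z⌋₊)) ≤ ⌊Z⌋₊ := by exact_mod_cast h1
      have h3 := Nat.floor_le hZ0.le
      rw [pow_add]
      norm_num
      linarith
  have h1 := h k hk S hS W ⌊y⌋ F (by
    intro x hx
    obtain ⟨hx1, hx2⟩ := hF x hx
    refine ⟨hx1, ?_⟩
    have h3 := abs_le.1 hx2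
    have h4 := Int.floor_le y
    have h5 := Int.lt_floor_add_one y
    have h7 : R + 1 ≤ κ * (2 : ℝ) ^ W := by
      have h8 : κ * (Z + 1) ≤ κ * (2 : ℝ) ^ W := mul_le_mul_of_nonneg_left hW1 hκ0.le
      have h9 : κ * Z = R := by rw [hZ]; field_simp
      linarith
    have h6 : |((x - ⌊y⌋ : ℤ) : ℝ)| ≤ |(k : ℝ)| * (2 : ℝ) ^ W := by
      push_cast
      rw [abs_le]
      constructor <;> linarith [h3.1, h3.2]
    exact_mod_cast h6)
  refine h1.trans ?_
  have h7 : (2 : ℝ) ^ (η * W) ≤ 4 * Z ^ η := by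
    rw [mul_comm, Real.rpow_mul (by norm_num), Real.rpow_natCast]
    calc ((2 : ℝ) ^ W) ^ η ≤ (4 * Z) ^ η := Real.rpow_le_rpow (by positivity) hW2 (by linarith)
      _ = 4 ^ η * Z ^ η := Real.mul_rpow (by norm_num) hZ0.le
      _ ≤ 4 * Z ^ η := by
          apply mul_le_mul_of_nonneg_right _ (Real.rpow_nonneg hZ0.le _)
          calc (4 : ℝ) ^ η ≤ 4 ^ (1 : ℝ) := Real.rpow_le_rpow_of_exponent_le (by norm_num) (by linarith)
            _ = 4 := Real.rpow_one _
  have h8 : κ * Z ^ η = κ ^ (1 - η) * R ^ η := by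
    rw [hZ, Real.div_rpow hR0.le hκ0.le, Real.rpow_sub hκ0, Real.rpow_one]
    field_simp
  have h9 : 0 ≤ κ ^ (1 - η) * R ^ η := by positivity
  calc A * κ * (2 : ℝ) ^ (η * W) ≤ A * κ * (4 * Z ^ η) :=
        mul_le_mul_of_nonneg_left h7 (by positivity)
    _ = 4 * A * (κ * Z ^ η) := by ring
    _ = 4 * A * (κ ^ (1 - η) * R ^ η) := by rw [h8]
    _ ≤ (4 * A + 3) * (κ ^ (1 - η) * R ^ η) := mul_le_mul_of_nonneg_right (by linarith) h9
    _ = _ := by ring

end Pool.Agent.TH930.SP
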